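import Pool.Agent.Helper86.AN.Stmts

/-! MP_4042d8_co: module P2 (runs of length two). -/

set_option autoImplicit false

namespace Pool.Agent.Helper35.AN

open Pool.Agent.Helper86.AN Finset

theorem p2_cnt {V : Type} [Fintype V] [DecidableEq V] (s : Equiv.Perm V) (A : Finset V)
    (c : V → Bool) (b : Bool) :
    cnt s A c b 2 = (A.filter (fun v => c v = b ∧ c (s v) = b)).card := by
  unfold cnt
  congr 1
  apply Finset.filter_congr
  intro v _
  constructor
  · intro h
    exact ⟨by simpa using h 0 (by simp), by simpa using h 1 (by simp)⟩
  · rintro ⟨h1, h2⟩ i hi
    rw [Finset.mem_range] at hi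
    interval_cases i
    · simpa using h1
    · simpa using h2

theorem p2_shift {V : Type} [Fintype V] [DecidableEq V] (s : Equiv.Perm V) (A : Finset V)
    (hA : Sinv s A) (c : V → Bool) (b : Bool) :
    (A.filter (fun v => c (s v) = b)).card = (A.filter (fun v => c v = b)).card := by
  apply Finset.card_bij (fun v _ => s v)
  · intro v hv
    rw [Finset.mem_filter] at hv ⊢
    exact ⟨(hA v).2 hv.1, hv.2⟩
  · intro v _ w _ h
    exact s.injective h
  · intro w hw
    rw [Finset.mem_filter] at hw
    refine ⟨s.symm w, ?_, by simp⟩
    rw [Finset.mem_filter]
    refine ⟨?_, by simpa using hw.2⟩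
    rw [← hA]
    simpa using hw.1

theorem st_P2 : ST_P2 := by
  intro V _ _ s A c hA hc
  rw [p2_cnt, p2_cnt]
  have h1 : (A.filter (fun v => c v = true)).card =
      (A.filter (fun v => c v = true ∧ c (s v) = true)).card +
      (A.filter (fun v => c v = true ∧ c (s v) = false)).card := by
    rw [← Finset.card_filter_add_card_filter_not (s := A.filter (fun v => c v = true))
      (fun v => c (s v) = true), Finset.filter_filter, Finset.filter_filter]
    congr 2
    apply Finset.filter_congr
    intro v _
    cases c (s v) <;> simp
  have h2 : (A.filter (fun v => c v = false)).card =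
      (A.filter (fun v => c v = false ∧ c (s v) = false)).card +
      (A.filter (fun v => c v = false ∧ c (s v) = true)).card := by
    rw [← Finset.card_filter_add_card_filter_not (s := A.filter (fun v => c v = false))
      (fun v => c (s v) = false), Finset.filter_filter, Finset.filter_filter]
    congr 2
    apply Finset.filter_congr
    intro v _
    cases c (s v) <;> simp
  have h3 : (A.filter (fun v => c (s v) = true)).card =
      (A.filter (fun v => c v = true ∧ c (s v) = true)).card +
      (A.filter (fun v => c v = false ∧ c (s v) = true)).card := by
    rw [← Finset.card_filter_add_card_filter_not (s := A.filter (fun v => c (s v) = true))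
      (fun v => c v = true), Finset.filter_filter, Finset.filter_filter]
    congr 1
    · congr 1
      apply Finset.filter_congr
      intro v _
      exact and_comm
    · congr 1
      apply Finset.filter_congr
      intro v _
      cases c v <;> simp
  have h4 := p2_shift s A hA c true
  omega

end Pool.Agent.Helper35.AN
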