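import Pool.Agent.Helper86.AN.Stmts

/-! MP_4042d8_co: module STK (the stuck situation). -/

set_option autoImplicit false

namespace Pool.Agent.Helper35.AN

open Pool.Agent.Helper86.AN Finset

/-- colouring with the two kinks coloured by `q` and `!q` -/
def stk_c {V : Type} [DecidableEq V] (u : Bool → V) (c : V → Bool) (q : Bool) : V → Bool :=
  fun v => if v = u false then q else if v = u true then !q else c v

theorem stk_bool (p1 p2 p3 p4 : Bool)
    (h1 : ¬ ((p1 = true ∧ p2 = true) ↔ (p3 = false ∧ p4 = false)))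
    (h2 : ¬ ((p1 = false ∧ p2 = false) ↔ (p3 = true ∧ p4 = true))) :
    p2 = p1 ∧ p3 = p1 ∧ p4 = p1 := by
  revert h1 h2
  cases p1 <;> cases p2 <;> cases p3 <;> cases p4 <;> simp

theorem stk_all (hPL : ST_PLAIN) (hRF : ST_RF) {V : Type} [Fintype V] [DecidableEq V]
    {s : Equiv.Perm V} {A : Finset V} {m w : V → V} {u : Bool → V} (hK : KD s A m w u)
    (hG : ¬ Good s A m) (c : V → Bool) (hm : Bi (Ap A u) m c) (hw : Bi (Ap A u) w c) :
    c (s.symm (u false)) = c (s (u false)) ∧ c (s (u true)) = c (s (u false)) ∧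
      c (s.symm (u true)) = c (s (u false)) := by
  obtain ⟨r1, r2, r3, r4, -⟩ := hRF V s A m w u hK
  have hne : u false ≠ u true := r4 false
  have hf : ∀ q, stk_c u c q (u false) = q := by
    intro q
    simp [stk_c]
  have ht : ∀ q, stk_c u c q (u true) = !q := by
    intro q
    simp [stk_c, hne.symm]
  have ho : ∀ q, ∀ v ∈ Ap A u, stk_c u c q v = c v := by
    intro q v hv
    have h := (r2 v).1 hv
    simp [stk_c, h.2 false, h.2 true]
  have hB : ∀ q, Bi A m (stk_c u c q) := by
    intro q v hv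
    by_cases h1 : v = u false
    · rw [h1, hK.mu false, hf]
      exact ht q
    · by_cases h2 : v = u true
      · rw [h2, hK.mu true, ht, Bool.not_not]
        exact hf q
      · have hvA : v ∈ Ap A u := by
          rw [r2]
          refine ⟨hv, ?_⟩
          intro i
          cases i
          · exact h1
          · exact h2
        rw [ho q v hvA, ho q (m v) (r1 v hvA).1]
        exact hm v hvA
  have hW : ∀ q, Bi (Ap A u) w (stk_c u c q) := by
    intro q v hv
    rw [ho q v hv, ho q (w v) (hK.winv v hv).1]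
    exact hw v hv
  have hP : ∀ q, ¬ ((c (s (u false)) = q ∧ c (s.symm (u false)) = q) ↔
      (c (s (u true)) = (!q) ∧ c (s.symm (u true)) = (!q))) := by
    intro q h
    apply hG
    refine ⟨stk_c u c q, hB q, hPL V s A m w u (stk_c u c q) hK (hB q) (hW q) ?_⟩
    rw [hf, ht, ho q _ (r3 false).1, ho q _ (r3 false).2.1, ho q _ (r3 true).1,
      ho q _ (r3 true).2.1]
    exact h
  exact stk_bool _ _ _ _ (hP true) (hP false)

theorem st_STK (hCON : ST_CON) (hPL : ST_PLAIN) (hZDE : ST_ZDE) (hENVF : ST_ENVF)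
    (hRF : ST_RF) : ST_STK := by
  intro V _ _ s A m w u hK hG
  obtain ⟨r1, r2, r3, r4, -⟩ := hRF V s A m w u hK
  obtain ⟨m', -, hm'⟩ := hCON V (Ap A u) (Ap A u) m w (Finset.Subset.refl _) r1 hK.winv
  obtain ⟨c0, -, hc1, hc2⟩ := hm' (fun _ => true) (by
    intro v hv
    rw [Finset.sdiff_self] at hv
    exact absurd hv (Finset.notMem_empty v))
  -- a colouring with `c (s (u false)) = true`
  obtain ⟨c, hcm, hcw, hcx⟩ : ∃ c : V → Bool, Bi (Ap A u) m c ∧ Bi (Ap A u) w c ∧
      c (s (u false)) = true := by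
    cases h : c0 (s (u false)) with
    | true => exact ⟨c0, hc1, hc2, h⟩
    | false =>
      refine ⟨fun v => !(c0 v), fun v hv => ?_, fun v hv => ?_, ?_⟩
      · show (!(c0 (m v))) = !(!(c0 v))
        rw [hc1 v hv]
      · show (!(c0 (w v))) = !(!(c0 v))
        rw [hc2 v hv]
      · show (!(c0 (s (u false)))) = true
        rw [h]
        rfl
  obtain ⟨n, e, hZ, he0⟩ := hZDE V s A m w u (s (u false)) hK (r3 false).1
  have hE : Env A m w u e c := ⟨hcm, hcw, by rw [he0]; exact hcx⟩
  obtain ⟨-, f2, -, -, c', hE', g1, g2⟩ := hENVF V s A m w u n e c hK hZ hE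
  have a1 := stk_all hPL hRF hK hG c hcm hcw
  have a2 := stk_all hPL hRF hK hG c' hE'.bm hE'.bw
  have hx' : c' (s (u false)) = true := by
    rw [← he0]
    exact hE'.e0
  have key : ∀ y ∈ Ap A u, c y = c (s (u false)) → c' y = c' (s (u false)) → ∃ k, e k = y := by
    intro y hy h1 h2
    by_cases hin : InZ w e y
    · obtain ⟨k, hk | hk⟩ := hin
      · exact ⟨k, hk.symm⟩
      · exfalso
        rw [hcx, hk, f2 k] at h1
        exact Bool.false_ne_true h1
    · exfalso
      have h3 := g2 y hy hin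
      rw [h2, hx', h1, hcx] at h3
      exact Bool.false_ne_true h3.symm
  refine ⟨n, e, c, hZ, hE, ?_⟩
  intro i
  cases i
  · exact ⟨key _ (r3 false).1 rfl rfl, key _ (r3 false).2.1 a1.1 a2.1⟩
  · exact ⟨key _ (r3 true).1 a1.2.1 a2.2.1, key _ (r3 true).2.1 a1.2.2 a2.2.2⟩

end Pool.Agent.Helper35.AN
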